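import Pool.Agent.Helper69.CB.Main

/-!
Every symmetric monic real polynomial with simple zeros in `[-1,1]` whose successive maxima of the
modulus on `[0,1]` increase is dominated at `1` on vertical lines.
-/

namespace Pool.Agent.Results.MP_1c7d4c_an.ConditionB

open Polynomial Finset Pool.Agent.Helper69.CB

/-- The monic real polynomial with zeros `x 0, …, x (n-1)`. -/
noncomputable def polyOf {n : ℕ} (x : Fin n → ℝ) : ℝ[X] := ∏ j, (X - C (x j))

/-- Condition (b): with `0 < t_1 < … < t_m < 1` the points of `(0,1)` where `Q' = 0`, the sequence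
`|Q 0|, |Q t_1|, …, |Q t_m|, |Q 1|` is (weakly) increasing. -/
def CondB (Q : ℝ[X]) : Prop :=
  MonotoneOn (fun t : ℝ => |Q.eval t|)
    {t : ℝ | t = 0 ∨ (0 < t ∧ t < 1 ∧ (derivative Q).eval t = 0) ∨ t = 1}

/-- Property (D). -/
def PropD (Q : ℝ[X]) : Prop :=
  ∀ x y : ℝ, -1 ≤ x → x ≤ 1 →
    ‖(Q.map (algebraMap ℝ ℂ)).eval ((x : ℂ) + (y : ℂ) * Complex.I)‖
      ≤ ‖(Q.map (algebraMap ℝ ℂ)).eval ((1 : ℂ) + (y : ℂ) * Complex.I)‖

/-- extension of `x` to all natural numbers -/
noncomputable def ext {n : ℕ} (x : Fin n → ℝ) (i : ℕ) : ℝ := if h : i < n then x ⟨i, h⟩ else 0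

/-- squared positive zeros -/
noncomputable def ww {n : ℕ} (x : Fin n → ℝ) (κ m : ℕ) (i : ℕ) : ℝ :=
  if i = 0 then 0 else if i ≤ m then (ext x (m + κ + (i - 1))) ^ 2 else 1

variable {n : ℕ} {x : Fin n → ℝ}

lemma ext_lt (hx : StrictMono x) {i j : ℕ} (hij : i < j) (hj : j < n) : ext x i < ext x j := by
  unfold ext
  rw [dif_pos (hij.trans hj), dif_pos hj]
  exact hx (by simpa using hij)

lemma ext_sym (hs : ∀ j, x j = - x (Fin.rev j)) {i j : ℕ} (hij : i + j + 1 = n) :
    ext x i = - ext x j := by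
  unfold ext
  rw [dif_pos (show i < n by omega), dif_pos (show j < n by omega), hs ⟨i, by omega⟩]
  congr 2
  apply Fin.ext
  simp [Fin.val_rev]
  omega

lemma ext_le_one (hb : ∀ j, x j ∈ Set.Icc (-1 : ℝ) 1) (i : ℕ) : ext x i ≤ 1 := by
  unfold ext
  split_ifs with h
  · exact (hb _).2
  · norm_num

lemma poly_eq (hs : ∀ j, x j = - x (Fin.rev j)) {κ m : ℕ} (hκ : κ ≤ 1) (hn : n = κ + 2 * m) :
    polyOf x = Qp κ m (ww x κ m) := by
  have h1 : polyOf x = ∏ i ∈ range n, (X - C (ext x i)) := by
    unfold polyOf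
    rw [Finset.prod_range]
    apply Finset.prod_congr rfl
    intro i _
    unfold ext
    rw [dif_pos i.2]
  have h2 : ∏ i ∈ range n, (X - C (ext x i) : ℝ[X])
      = (∏ i ∈ range m, (X - C (ext x i))) * ((∏ i ∈ range κ, (X - C (ext x (m + i))))
        * ∏ i ∈ range m, (X - C (ext x (m + κ + i)))) := by
    have e : range n = range (m + κ + m) := by
      congr 1
      omega
    rw [e, Finset.prod_range_add, Finset.prod_range_add, mul_assoc]
  have h3 : ∏ i ∈ range κ, (X - C (ext x (m + i)) : ℝ[X]) = X ^ κ := by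
    rcases Nat.le_one_iff_eq_zero_or_eq_one.mp hκ with h | h
    · subst h; simp
    · subst h
      have : ext x m = - ext x m := ext_sym hs (by omega)
      have h0 : ext x m = 0 := by linarith
      simp [h0]
  have h4 : ∏ i ∈ range m, (X - C (ext x i) : ℝ[X]) = ∏ i ∈ range m, (X + C (ext x (m + κ + i))) := by
    rw [← Finset.prod_range_reflect]
    apply Finset.prod_congr rfl
    intro i hi
    have hi' := Finset.mem_range.mp hi
    have : ext x (m - 1 - i) = - ext x (m + κ + i) := ext_sym hs (by omega)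
    rw [this, C_neg, sub_neg_eq_add]
  rw [h1, h2, h3, h4]
  unfold Qp
  have h5 : ∏ i ∈ range m, (X ^ 2 - C (ww x κ m (i + 1)) : ℝ[X])
      = (∏ i ∈ range m, (X + C (ext x (m + κ + i)))) * ∏ i ∈ range m, (X - C (ext x (m + κ + i))) := by
    rw [← Finset.prod_mul_distrib]
    apply Finset.prod_congr rfl
    intro i hi
    have hi' := Finset.mem_range.mp hi
    have : ww x κ m (i + 1) = (ext x (m + κ + i)) ^ 2 := by
      unfold ww
      rw [if_neg (by omega), if_pos (by omega)]
      simp
    rw [this, C_pow]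
    ring
  rw [h5]
  ring

lemma ext_pos (hx : StrictMono x) (hs : ∀ j, x j = - x (Fin.rev j)) {κ m : ℕ}
    (hn : n = κ + 2 * m) {i : ℕ} (hi : i < m) : 0 < ext x (m + κ + i) := by
  have h1 : ext x (m - 1 - i) = - ext x (m + κ + i) := ext_sym hs (by omega)
  have h2 : ext x (m - 1 - i) < ext x (m + κ + i) := ext_lt hx (by omega) (by omega)
  linarith

/-- the last squared zero is below `1` -/
lemma last_lt_one (hx : StrictMono x) (hb : ∀ j, x j ∈ Set.Icc (-1 : ℝ) 1)
    (hs : ∀ j, x j = - x (Fin.rev j)) {κ m : ℕ} (hκ : κ ≤ 1) (hm : 0 < m) (hn : n = κ + 2 * m)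
    (hB : CondB (polyOf x)) : ext x (n - 1) < 1 := by
  rcases eq_or_lt_of_le (ext_le_one hb (n - 1)) with h | h
  · exfalso
    have hroot : ∀ i, i < n → (polyOf x).eval (ext x i) = 0 := by
      intro i hi
      unfold polyOf
      rw [eval_prod]
      apply Finset.prod_eq_zero (Finset.mem_univ ⟨i, hi⟩)
      unfold ext
      rw [dif_pos hi]
      simp
    have hnonroot : ∀ c : ℝ, (∀ i, i < n → c ≠ ext x i) → (polyOf x).eval c ≠ 0 := by
      intro c hc
      unfold polyOf
      rw [eval_prod]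
      apply Finset.prod_ne_zero_iff.mpr
      intro i _
      have := hc i i.2
      unfold ext at this
      rw [dif_pos i.2] at this
      simp only [eval_sub, eval_X, eval_C]
      exact sub_ne_zero.mpr this
    have h1 : (polyOf x).eval 1 = 0 := by
      rw [← h]; exact hroot _ (by omega)
    rcases Nat.le_one_iff_eq_zero_or_eq_one.mp hκ with hk | hk
    · subst hk
      have h2 := hB (a := 0) (Or.inl rfl) (b := 1) (Or.inr (Or.inr rfl)) zero_le_one
      simp only [h1, abs_zero] at h2
      have h3 : (polyOf x).eval 0 = 0 := abs_nonpos_iff.mp h2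
      apply hnonroot 0 _ h3
      intro i hi h0
      rcases lt_or_ge i m with h4 | h4
      · have e := ext_sym (x := x) hs (i := i) (j := n - 1 - i) (by omega)
        have := ext_pos hx hs (κ := 0) (m := m) hn (i := m - 1 - i) (by omega)
        have e2 : m + 0 + (m - 1 - i) = n - 1 - i := by omega
        rw [e2] at this
        linarith
      · have := ext_pos hx hs (κ := 0) (m := m) hn (i := i - m) (by omega)
        have e2 : m + 0 + (i - m) = i := by omega
        rw [e2] at this
        linarith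
    · subst hk
      have hmid : ext x m = 0 := by
        have : ext x m = - ext x m := ext_sym hs (by omega)
        linarith
      have hpos : 0 < ext x (m + 1) := by
        have := ext_pos hx hs (κ := 1) (m := m) hn (i := 0) hm
        simpa using this
      have hroll : (polyOf x).eval 0 = (polyOf x).eval (ext x (m + 1)) := by
        have e1 := hroot m (by omega)
        rw [hmid] at e1
        rw [e1, hroot (m + 1) (by omega)]
      obtain ⟨c, hc, hc'⟩ := exists_hasDerivAt_eq_zero (f := fun t => (polyOf x).eval t)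
        (f' := fun t => (derivative (polyOf x)).eval t) hpos
        (polyOf x).continuous.continuousOn hroll (fun t _ => (polyOf x).hasDerivAt t)
      have hc1 : c < 1 := lt_of_lt_of_le hc.2 (ext_le_one hb _)
      have h2 := hB (a := c) (Or.inr (Or.inl ⟨hc.1, hc1, hc'⟩)) (b := 1) (Or.inr (Or.inr rfl)) hc1.le
      simp only [h1, abs_zero] at h2
      have h3 : (polyOf x).eval c = 0 := abs_nonpos_iff.mp h2
      apply hnonroot c _ h3
      intro i hi h0
      rcases lt_or_ge m i with h4 | h4
      · have : ext x (m + 1) ≤ ext x i := by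
          rcases eq_or_lt_of_le (show m + 1 ≤ i from h4) with h5 | h5
          · rw [h5]
          · exact (ext_lt hx h5 hi).le
        linarith [hc.2]
      · have : ext x i ≤ ext x m := by
          rcases eq_or_lt_of_le h4 with h5 | h5
          · rw [h5]
          · exact (ext_lt hx h5 (by omega)).le
        linarith [hc.1]
  · exact h

lemma srt (hx : StrictMono x) (hb : ∀ j, x j ∈ Set.Icc (-1 : ℝ) 1)
    (hs : ∀ j, x j = - x (Fin.rev j)) {κ m : ℕ} (hκ : κ ≤ 1) (hm : 0 < m) (hn : n = κ + 2 * m)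
    (hB : CondB (polyOf x)) : Srt m (ww x κ m) := by
  refine ⟨by simp [ww], ?_, ?_⟩
  · intro i hi
    unfold ww
    rw [if_neg (by omega), if_neg (by omega)]
  · intro i hi
    unfold ww
    rcases Nat.eq_zero_or_pos i with h0 | h0
    · subst h0
      rw [if_pos rfl, if_neg (by omega), if_pos (by omega)]
      have := ext_pos hx hs hn hm
      have e : m + κ + (0 + 1 - 1) = m + κ + 0 := by omega
      rw [e]
      positivity
    · rw [if_neg (by omega), if_pos hi, if_neg (by omega)]
      have hp := ext_pos hx hs hn (i := i - 1) (by omega)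
      split_ifs with h1
      · have e : m + κ + (i + 1 - 1) = m + κ + i := by omega
        rw [e]
        have hlt : ext x (m + κ + (i - 1)) < ext x (m + κ + i) := ext_lt hx (by omega) (by omega)
        exact pow_lt_pow_left₀ hlt hp.le (by norm_num)
      · have hi' : i = m := by omega
        have hl := last_lt_one hx hb hs hκ hm hn hB
        have e : n - 1 = m + κ + (i - 1) := by omega
        rw [e] at hl
        nlinarith

/-- square roots of critical values of the squared variable are critical -/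
lemma mem_S {κ m : ℕ} {w : ℕ → ℝ} (hw : Srt m w) {k : ℕ} (hk : k ≤ m) {t : ℝ}
    (ht : Pos κ m w k t) (hl : lam κ m w k t = 0) :
    √t = 0 ∨ (0 < √t ∧ √t < 1 ∧ (derivative (Qp κ m w)).eval (√t) = 0) ∨ √t = 1 := by
  have hmem := ht.mem hw
  have hz := ht.zero hw
  have hne := ht.ne hw hk
  have hG := ht.G_pos hw hk
  rcases ht with ⟨h1, h2⟩ | ⟨h1, h2, h3, h4⟩ | ⟨h1, h2, h3, h4⟩
  · right; right; rw [h2]; simp
  · left; rw [h4]; simp
  · right; left
    have ht0 : 0 < t := lt_of_le_of_lt (hw.cfg.nonneg k) h3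
    have ht1 : t < 1 := lt_of_lt_of_le h4 (hw.cfg.le_one _)
    have hs0 : 0 < √t := Real.sqrt_pos.mpr ht0
    have hs1 : √t < 1 := by
      rw [Real.sqrt_lt' one_pos]; simpa using ht1
    refine ⟨hs0, hs1, ?_⟩
    have hLp : Lp κ m w t = 0 := by
      unfold lam at hl; rwa [if_neg (by tauto)] at hl
    set τ := √t with hτ
    have hτ2 : τ ^ 2 = t := Real.sq_sqrt ht0.le
    set Q := Qp κ m w with hQ
    have hQ2 : (Q.eval τ) ^ 2 = G κ m w t := by rw [hQ, Qp_eval_sq, hτ2]
    have hQ0 : Q.eval τ ≠ 0 := by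
      intro h0; rw [h0] at hQ2
      rw [← hQ2] at hG
      norm_num at hG
    -- derivative of the logarithm in two ways
    have d1 : HasDerivAt (fun z : ℝ => Real.log ((Q.eval z) ^ 2))
        (2 * Q.eval τ * (derivative Q).eval τ / (Q.eval τ) ^ 2) τ := by
      have e := ((Q.hasDerivAt τ).fun_pow 2).log (pow_ne_zero 2 hQ0)
      refine e.congr_deriv ?_
      push_cast
      ring
    have d2 : HasDerivAt (fun z : ℝ => LG κ m w (z ^ 2)) (Lp κ m w t * (2 * τ)) τ := by
      have e1 : HasDerivAt (fun s => LG κ m w s) (Lp κ m w t) (τ ^ 2) := by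
        rw [hτ2]; exact LG_hasDerivAt ht0.ne' hne
      have e2 : HasDerivAt (fun z : ℝ => z ^ 2) (2 * τ) τ := by
        simpa using (hasDerivAt_id τ).fun_pow 2
      exact HasDerivAt.comp (h := fun z : ℝ => z ^ 2) (h₂ := fun s => LG κ m w s) τ e1 e2
    have hev : (fun z : ℝ => Real.log ((Q.eval z) ^ 2)) =ᶠ[nhds τ] (fun z : ℝ => LG κ m w (z ^ 2)) := by
      have hc : Filter.Tendsto (fun z : ℝ => z ^ 2) (nhds τ) (nhds t) := by
        rw [← hτ2]; exact (continuous_pow 2).tendsto τ
      filter_upwards [hc.eventually (lt_mem_nhds h3), hc.eventually (gt_mem_nhds h4)] with z z1 z2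
      have hp : Pos κ m w k (z ^ 2) := Or.inr (Or.inr ⟨h1, h2, z1, z2⟩)
      rw [LG_eq (hp.zero hw) (hp.ne hw hk), hQ, Qp_eval_sq]
    have d3 := d2.congr_of_eventuallyEq hev
    have heq := d1.unique d3
    rw [hLp, zero_mul, div_eq_zero_iff] at heq
    rcases heq with h5 | h5
    · rcases mul_eq_zero.mp h5 with h6 | h6
      · rcases mul_eq_zero.mp h6 with h7 | h7
        · norm_num at h7
        · exact absurd h7 hQ0
      · exact h6
    · exact absurd h5 (pow_ne_zero 2 hQ0)

/-- **Q2 has an affirmative answer.** -/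
theorem result (n : ℕ) (_hn : 1 ≤ n) (x : Fin n → ℝ) (hx : StrictMono x)
    (hb : ∀ j, x j ∈ Set.Icc (-1 : ℝ) 1) (hs : ∀ j, x j = - x (Fin.rev j))
    (hB : CondB (polyOf x)) : PropD (polyOf x) := by
  obtain ⟨κ, m, hκ, hnm⟩ : ∃ κ m : ℕ, κ ≤ 1 ∧ n = κ + 2 * m :=
    ⟨n % 2, n / 2, by omega, by omega⟩
  intro x' y hx1 hx2
  have habs : |x'| ≤ 1 := abs_le.mpr ⟨hx1, hx2⟩
  have hpoly := poly_eq hs hκ hnm
  rw [hpoly, Qp_map_eval, Qp_map_eval]
  have hone : ((1 : ℝ) : ℂ) = 1 := by simp
  have key : Pz κ m (ww x κ m) x' y ≤ Pz κ m (ww x κ m) 1 y := by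
    rcases Nat.eq_zero_or_pos m with hm | hm
    · subst hm
      unfold Pz
      simp only [Finset.range_zero, Finset.prod_empty, mul_one]
      apply pow_le_pow_left₀ (by positivity)
      nlinarith
    · have hw := srt hx hb hs hκ hm hnm hB
      rw [hpoly] at hB
      set w := ww x κ m with hwdef
      obtain ⟨t, hdat⟩ := exists_data (κ := κ) hw
      have hpos : ∀ k, k ≤ m → 0 < Mx κ m w k := by
        intro k hk
        rw [← hdat.val k hk]
        exact (hdat.pos k hk).G_pos hw hk
      have hmono : ∀ k, k < m → Mx κ m w k ≤ Mx κ m w (k + 1) := by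
        intro k hk
        have hk1 : k + 1 ≤ m := hk
        have s1 := mem_S hw hk.le (hdat.pos k hk.le) (hdat.crit k hk.le)
        have s2 := mem_S hw hk1 (hdat.pos (k + 1) hk1) (hdat.crit (k + 1) hk1)
        have hle : √(t k) ≤ √(t (k + 1)) := Real.sqrt_le_sqrt (hdat.lt_succ hk).le
        have h1 := hB s1 s2 hle
        simp only at h1
        rw [← hdat.val k hk.le, ← hdat.val (k + 1) hk1]
        have e : ∀ j, j ≤ m → G κ m w (t j) = ((Qp κ m w).eval √(t j)) ^ 2 := by
          intro j hj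
          rw [Qp_eval_sq, Real.sq_sqrt (hdat.nonneg hj)]
        rw [e k hk.le, e (k + 1) hk1]
        exact sq_le_sq.mpr h1
      have hmem : w ∈ Bd κ m (Mx κ m w 0 / Mx κ m w m) := by
        refine ⟨hw.cfg, hmono, ?_⟩
        rw [div_mul_cancel₀ _ (hpos m le_rfl).ne']
      exact core' hκ hm (div_pos (hpos 0 (Nat.zero_le m)) (hpos m le_rfl)) hmem habs
  rw [← norm_Qc_sq, ← norm_Qc_sq, hone] at key
  exact (sq_le_sq₀ (norm_nonneg _) (norm_nonneg _)).mp key

end Pool.Agent.Results.MP_1c7d4c_an.ConditionB
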